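import Pool.Agent.Helper59.LUC.Goals2

/-!
# Packet PB2: Parseval for a half of the square roots of the primitive roots of unity
-/

set_option autoImplicit false

open Finset

namespace Pool.Agent.Helper59.LUC

namespace PkPB2

theorem conj_inv {z : ℂ} (hz : ‖z‖ = 1) : (starRingEnd ℂ) z = z⁻¹ := by
  rw [Complex.inv_def, Complex.normSq_eq_norm_sq, hz]
  simp

theorem norm_one {r : ℕ} (hr : 3 ≤ r) {w : ℂ} (hw : IsPrimitiveRoot (w ^ 2) r) : ‖w‖ = 1 := by
  have h := hw.norm'_eq_one (by omega)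
  rw [norm_pow] at h
  exact (pow_eq_one_iff_of_nonneg (norm_nonneg w) (by norm_num)).1 h

theorem pow_two_mul {r : ℕ} {w : ℂ} (hw : IsPrimitiveRoot (w ^ 2) r) : w ^ (2 * r) = 1 := by
  rw [pow_mul]
  exact hw.pow_eq_one

/-- the cardinality -/
theorem card_tw {r : ℕ} (hr : 3 ≤ r) {O : Finset ℂ} (hO : Tw r O) : O.card = r.totient := by
  classical
  have hr0 : 0 < r := by omega
  rw [← Complex.card_primitiveRoots]
  apply Finset.card_bij (fun w _ => w ^ 2)
  · intro w hw
    rw [mem_primitiveRoots hr0]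
    exact hO.prim w hw
  · intro z hz w hw h
    rcases sq_eq_sq_iff_eq_or_eq_neg.1 h with h | h
    · exact h
    · exfalso
      have := (hO.half w (hO.prim w hw)).1 hw
      rw [h] at hz
      exact this hz
  · intro z hz
    rw [mem_primitiveRoots hr0] at hz
    obtain ⟨w, hw⟩ := IsAlgClosed.exists_pow_nat_eq z (n := 2) (by norm_num)
    have hpw : IsPrimitiveRoot (w ^ 2) r := by rw [hw]; exact hz
    by_cases h : w ∈ O
    · exact ⟨w, h, hw⟩
    · refine ⟨-w, ?_, by rw [neg_sq, hw]⟩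
      by_contra hcon
      exact h ((hO.half w hpw).2 hcon)

theorem pow_inj {n a : ℕ} (ha : a.Coprime n) {z w : ℂ} (hz : z ^ n = 1) (hw : w ^ n = 1)
    (hn : 1 < n) (h : z ^ a = w ^ a) : z = w := by
  obtain ⟨b, -, hb⟩ := Nat.exists_mul_mod_eq_one_of_coprime ha hn
  have key : ∀ x : ℂ, x ^ n = 1 → (x ^ a) ^ b = x := by
    intro x hx
    rw [← pow_mul, ← Nat.mod_add_div (a * b) n, hb, pow_add, pow_mul, hx]
    simp
  rw [← key z hz, h, key w hw]

/-- `f(k a)` and `f(k)` have the same norm for `a` coprime to `2 r` -/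
theorem norm_sum_pow {r : ℕ} (hr : 3 ≤ r) {O : Finset ℂ} (hO : Tw r O) {a : ℕ}
    (ha : a.Coprime (2 * r)) (k : ℕ) : ‖∑ z ∈ O, (z ^ k) ^ a‖ = ‖∑ z ∈ O, z ^ k‖ := by
  classical
  have hpow : ∀ z ∈ O, z ^ (2 * r) = 1 := fun z hz => pow_two_mul (hO.prim z hz)
  rcases hO.orb a ha with h | h
  · have hinj : Set.InjOn (fun z : ℂ => z ^ a) (O : Set ℂ) := by
      intro z hz w hw hzw
      exact pow_inj ha (hpow z hz) (hpow w hw) (by omega) hzw
    have himg : O.image (fun z : ℂ => z ^ a) = O := by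
      apply Finset.eq_of_subset_of_card_le
      · intro y hy
        obtain ⟨z, hz, rfl⟩ := Finset.mem_image.1 hy
        exact h z hz
      · rw [Finset.card_image_of_injOn hinj]
    have e : ∑ z ∈ O, z ^ k = ∑ z ∈ O, (z ^ a) ^ k := by
      conv_lhs => rw [← himg]
      rw [Finset.sum_image hinj]
    rw [e]
    congr 1
    apply Finset.sum_congr rfl
    intro z _
    rw [← pow_mul, ← pow_mul, mul_comm]
  · have hinj : Set.InjOn (fun z : ℂ => -(z ^ a)) (O : Set ℂ) := by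
      intro z hz w hw hzw
      exact pow_inj ha (hpow z hz) (hpow w hw) (by omega) (neg_injective hzw)
    have himg : O.image (fun z : ℂ => -(z ^ a)) = O := by
      apply Finset.eq_of_subset_of_card_le
      · intro y hy
        obtain ⟨z, hz, rfl⟩ := Finset.mem_image.1 hy
        exact h z hz
      · rw [Finset.card_image_of_injOn hinj]
    have e : ∑ z ∈ O, z ^ k = ∑ z ∈ O, (-(z ^ a)) ^ k := by
      conv_lhs => rw [← himg]
      rw [Finset.sum_image hinj]
    have e2 : ∑ z ∈ O, (-(z ^ a)) ^ k = (-1) ^ k * ∑ z ∈ O, (z ^ k) ^ a := by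
      rw [Finset.mul_sum]
      apply Finset.sum_congr rfl
      intro z _
      rw [neg_pow, ← pow_mul, ← pow_mul, mul_comm a k]
    rw [e, e2, norm_mul, norm_pow, norm_neg]
    simp

/-- orthogonality -/
theorem geom_zero {r : ℕ} {x : ℂ} (hx : x ^ r = 1) (h1 : x ≠ 1) :
    ∑ a ∈ Finset.range r, x ^ a = 0 := by
  have h := mul_geom_sum x r
  rw [hx, sub_self] at h
  exact (mul_eq_zero.mp h).resolve_left (sub_ne_zero.mpr h1)

/-- Parseval -/
theorem parseval {r : ℕ} (hr : 3 ≤ r) {O : Finset ℂ} (hO : Tw r O) (k : ℕ) :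
    ∑ a ∈ Finset.range (2 * r), ‖∑ z ∈ O, (z ^ k) ^ a‖ ^ 2 =
      ((2 * r : ℕ) : ℝ) * ((O ×ˢ O).filter (fun p : ℂ × ℂ => p.1 ^ k = p.2 ^ k)).card := by
  classical
  have hc : ((∑ a ∈ Finset.range (2 * r), ‖∑ z ∈ O, (z ^ k) ^ a‖ ^ 2 : ℝ) : ℂ) =
      ((((2 * r : ℕ) : ℝ) * ((O ×ˢ O).filter (fun p : ℂ × ℂ => p.1 ^ k = p.2 ^ k)).card : ℝ) : ℂ) := by
    rw [Complex.ofReal_sum]
    have h1 : ∀ a ∈ Finset.range (2 * r), ((‖∑ z ∈ O, (z ^ k) ^ a‖ ^ 2 : ℝ) : ℂ) =
        ∑ p ∈ O ×ˢ O, (p.1 ^ k * (p.2 ^ k)⁻¹) ^ a := by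
      intro a _
      rw [← Complex.normSq_eq_norm_sq, ← Complex.mul_conj, map_sum, Finset.sum_mul_sum,
        Finset.sum_product]
      apply Finset.sum_congr rfl
      intro z _
      apply Finset.sum_congr rfl
      intro w hw
      simp only
      rw [map_pow, map_pow, conj_inv (norm_one hr (hO.prim w hw)), mul_pow, inv_pow]
    rw [Finset.sum_congr rfl h1, Finset.sum_comm]
    have h2 : ∀ p ∈ O ×ˢ O, ∑ a ∈ Finset.range (2 * r), (p.1 ^ k * (p.2 ^ k)⁻¹) ^ a =
        if p.1 ^ k = p.2 ^ k then (((2 * r : ℕ) : ℝ) : ℂ) else 0 := by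
      intro p hp
      rw [Finset.mem_product] at hp
      have hz := pow_two_mul (hO.prim _ hp.1)
      have hw := pow_two_mul (hO.prim _ hp.2)
      have hw0 : p.2 ≠ 0 := by
        intro h0
        have := norm_one hr (hO.prim _ hp.2)
        rw [h0, norm_zero] at this
        exact zero_ne_one this
      have hwk : p.2 ^ k ≠ 0 := pow_ne_zero k hw0
      split_ifs with h
      · rw [h, mul_inv_cancel₀ hwk]
        simp
      · apply geom_zero
        · have e1 : (p.1 ^ k) ^ (2 * r) = 1 := by rw [← pow_mul, mul_comm, pow_mul, hz, one_pow]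
          have e2 : (p.2 ^ k) ^ (2 * r) = 1 := by rw [← pow_mul, mul_comm, pow_mul, hw, one_pow]
          rw [mul_pow, inv_pow, e1, e2]
          simp
        · intro h3
          apply h
          field_simp at h3
          exact h3
    rw [Finset.sum_congr rfl h2, ← Finset.sum_filter, Finset.sum_const, nsmul_eq_mul]
    push_cast
    ring
  exact_mod_cast hc

theorem bound {r : ℕ} (hr : 3 ≤ r) {O : Finset ℂ} (hO : Tw r O) (k : ℕ) (hk1 : 1 ≤ k) :
    ‖∑ z ∈ O, z ^ k‖ ^ 2 ≤ 2 * (k : ℝ) * r := by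
  classical
  have hcard := card_tw hr hO
  have hφ : 0 < r.totient := Nat.totient_pos.2 (by omega)
  have hk : ∀ z ∈ O, (O.filter (fun w => z ^ k = w ^ k)).card ≤ k := by
    intro z _
    calc (O.filter (fun w => z ^ k = w ^ k)).card
        ≤ (Polynomial.nthRoots k (z ^ k)).toFinset.card := by
          apply Finset.card_le_card
          intro w hw
          rw [Finset.mem_filter] at hw
          rw [Multiset.mem_toFinset, Polynomial.mem_nthRoots (by omega)]
          exact hw.2.symm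
      _ ≤ Multiset.card (Polynomial.nthRoots k (z ^ k)) := Multiset.toFinset_card_le _
      _ ≤ k := Polynomial.card_nthRoots k _
  have hN : ((O ×ˢ O).filter (fun p : ℂ × ℂ => p.1 ^ k = p.2 ^ k)).card ≤ r.totient * k := by
    rw [Finset.card_filter, Finset.sum_product]
    calc ∑ z ∈ O, ∑ w ∈ O, (if z ^ k = w ^ k then 1 else 0)
        = ∑ z ∈ O, (O.filter (fun w => z ^ k = w ^ k)).card := by
          apply Finset.sum_congr rfl
          intro z _
          rw [Finset.card_filter]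
      _ ≤ ∑ z ∈ O, k := Finset.sum_le_sum hk
      _ = r.totient * k := by
          rw [Finset.sum_const, smul_eq_mul, hcard]
  have hP := parseval hr hO k
  have hlow : ((2 * r).totient : ℝ) * ‖∑ z ∈ O, z ^ k‖ ^ 2 ≤
      ∑ a ∈ Finset.range (2 * r), ‖∑ z ∈ O, (z ^ k) ^ a‖ ^ 2 := by
    have h1 : ∑ a ∈ (Finset.range (2 * r)).filter (fun a => (2 * r).Coprime a),
        ‖∑ z ∈ O, (z ^ k) ^ a‖ ^ 2 = ((2 * r).totient : ℝ) * ‖∑ z ∈ O, z ^ k‖ ^ 2 := by
      rw [Finset.sum_congr rfl (g := fun _ => ‖∑ z ∈ O, z ^ k‖ ^ 2)]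
      · rw [Finset.sum_const, nsmul_eq_mul]
        rfl
      · intro a ha
        rw [Finset.mem_filter] at ha
        rw [norm_sum_pow hr hO ha.2.symm k]
    rw [← h1]
    apply Finset.sum_le_sum_of_subset_of_nonneg
    · exact Finset.filter_subset _ _
    · intro a _ _
      positivity
  rw [hP] at hlow
  have hφR : (0 : ℝ) < r.totient := by exact_mod_cast hφ
  have hφ2 : (r.totient : ℝ) ≤ ((2 * r).totient : ℝ) := by
    have : r.totient ∣ (2 * r).totient := Nat.totient_dvd_of_dvd (Dvd.intro_left 2 rfl)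
    exact_mod_cast Nat.le_of_dvd (Nat.totient_pos.2 (by omega)) this
  have hNR : (((O ×ˢ O).filter (fun p : ℂ × ℂ => p.1 ^ k = p.2 ^ k)).card : ℝ) ≤
      r.totient * k := by
    exact_mod_cast hN
  have h3 : (r.totient : ℝ) * ‖∑ z ∈ O, z ^ k‖ ^ 2 ≤ (r.totient : ℝ) * (2 * (k : ℝ) * r) := by
    calc (r.totient : ℝ) * ‖∑ z ∈ O, z ^ k‖ ^ 2
        ≤ ((2 * r).totient : ℝ) * ‖∑ z ∈ O, z ^ k‖ ^ 2 :=
          mul_le_mul_of_nonneg_right hφ2 (by positivity)
      _ ≤ ((2 * r : ℕ) : ℝ) * ((O ×ˢ O).filter (fun p : ℂ × ℂ => p.1 ^ k = p.2 ^ k)).card := hlow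
      _ ≤ ((2 * r : ℕ) : ℝ) * (r.totient * k) := mul_le_mul_of_nonneg_left hNR (by positivity)
      _ = _ := by push_cast; ring
  exact le_of_mul_le_mul_left h3 hφR

theorem thm : G_PB2 := by
  intro r hr O hO
  exact ⟨card_tw hr hO, fun k hk => bound hr hO k hk⟩

end PkPB2

end Pool.Agent.Helper59.LUC
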